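import Mathlib

set_option autoImplicit false

namespace Pool.Agent.Results.MP_aba9fe_co.Intermediate

/-- A loopless multigraph with vertex set `V`: `mult x y` is the number of parallel edges between
`x` and `y`. The edges between `x` and `y` are labelled `0, ..., mult x y - 1`. -/
structure MG (V : Type) where
  /-- number of parallel edges -/
  mult : V → V → ℕ
  symm : ∀ x y, mult x y = mult y x
  loopless : ∀ x, mult x x = 0

/-- A path of order `k + 1`: distinct vertices `a 0, ..., a k`, together with a choice `e i` of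
an edge between `a i` and `a (i + 1)`. -/
def IsPath {V : Type} (G : MG V) (k : ℕ) (a : Fin (k + 1) → V) (e : Fin k → ℕ) : Prop :=
  Function.Injective a ∧ ∀ i : Fin k, e i < G.mult (a i.castSucc) (a i.succ)

/-- A unique shortest path. -/
def IsUSP {V : Type} (G : MG V) (k : ℕ) (a : Fin (k + 1) → V) (e : Fin k → ℕ) : Prop :=
  IsPath G k a e ∧
  (∀ (k' : ℕ) (a' : Fin (k' + 1) → V) (e' : Fin k' → ℕ), IsPath G k' a' e' → a' 0 = a 0 →
    a' (Fin.last k') = a (Fin.last k) → k ≤ k') ∧
  (∀ (a' : Fin (k + 1) → V) (e' : Fin k → ℕ), IsPath G k a' e' → a' 0 = a 0 →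
    a' (Fin.last k) = a (Fin.last k) → a' = a ∧ e' = e)

/-- The parade number: the largest order of a unique shortest path. -/
noncomputable def usp {V : Type} (G : MG V) : ℕ :=
  sSup {p | ∃ (k : ℕ) (a : Fin (k + 1) → V) (e : Fin k → ℕ), IsUSP G k a e ∧ p = k + 1}

/-- The spectator number. -/
noncomputable def sp {V : Type} (G : MG V) : ℕ := Nat.card V - usp G

/-- Deletion of the vertex `v` (used when `v` is isolated). -/
def delVertex {V : Type} (G : MG V) (v : V) : MG {w : V // w ≠ v} where
  mult x y := G.mult x y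
  symm x y := G.symm x y
  loopless x := G.loopless x

open Classical in
/-- Deletion of one edge between `x` and `y`. -/
noncomputable def delEdge {V : Type} (G : MG V) (x y : V) : MG V where
  mult a b := if (a = x ∧ b = y) ∨ (a = y ∧ b = x) then G.mult a b - 1 else G.mult a b
  symm a b := by
    have h : ((a = x ∧ b = y) ∨ (a = y ∧ b = x)) ↔ ((b = x ∧ a = y) ∨ (b = y ∧ a = x)) := by
      tauto
    simp only [h, G.symm a b]
  loopless a := by
    rw [G.loopless a]
    split_ifs <;> rfl

open Classical in
/-- Contraction of `u` and `v` (used when exactly one edge joins them); the new vertex is called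
`u`. -/
noncomputable def contract {V : Type} (G : MG V) (u v : V) : MG {w : V // w ≠ v} where
  mult a b := if a = b then 0 else
    G.mult a b + (if a.1 = u then G.mult v b else 0) + (if b.1 = u then G.mult a v else 0)
  symm a b := by
    by_cases h : a = b
    · rw [h]
    · rw [if_neg h, if_neg (Ne.symm h), G.symm a b, G.symm v b, G.symm a v]
      omega
  loopless a := by simp

/-- `Minor V G W H` says that `G` is a minor of `H`. -/
inductive Minor : (V : Type) → MG V → (W : Type) → MG W → Prop
  | iso {V W : Type} (G : MG V) (H : MG W) (e : V ≃ W)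
      (h : ∀ x y, H.mult (e x) (e y) = G.mult x y) : Minor V G W H
  | delVertex {V W : Type} (G : MG V) (H : MG W) (v : W) (hv : ∀ w, H.mult v w = 0)
      (h : Minor V G {w : W // w ≠ v} (delVertex H v)) : Minor V G W H
  | delEdge {V W : Type} (G : MG V) (H : MG W) (x y : W) (hxy : 0 < H.mult x y)
      (h : Minor V G W (delEdge H x y)) : Minor V G W H
  | contract {V W : Type} (G : MG V) (H : MG W) (u v : W) (huv : H.mult u v = 1)
      (h : Minor V G {w : W // w ≠ v} (contract H u v)) : Minor V G W H

/-- The spectator floor. -/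
noncomputable def sf {V : Type} (G : MG V) : ℕ :=
  sInf {s | ∃ (W : Type) (_ : Finite W) (H : MG W), Minor V G W H ∧ sp H = s}

/-- `F` is a supergraph of `G`: it is obtained by adding edges. -/
def Super {V : Type} (G F : MG V) : Prop := ∀ x y, G.mult x y ≤ F.mult x y

section Cert

variable {V : Type}

/-- Certificates for unique shortest paths. -/
structure Cert (G : MG V) (p : ℕ) (a : ℕ → V) (φ : V → ℕ) : Prop where
  lev : ∀ i, i < p → φ (a i) = i
  lip : ∀ x y, 0 < G.mult x y → φ y ≤ φ x + 1
  uniq : ∀ i, i + 1 < p → ∀ y, 0 < G.mult (a i) y → φ y = i + 1 → y = a (i + 1)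
  one : ∀ i, i + 1 < p → G.mult (a i) (a (i + 1)) = 1

theorem Cert.mono {G : MG V} {p q : ℕ} {a : ℕ → V} {φ : V → ℕ} (h : Cert G p a φ) (hq : q ≤ p) :
    Cert G q a φ where
  lev i hi := h.lev i (by omega)
  lip := h.lip
  uniq i hi := h.uniq i (by omega)
  one i hi := h.one i (by omega)

theorem Cert.cap {G : MG V} {p : ℕ} {a : ℕ → V} {φ : V → ℕ} (h : Cert G (p + 1) a φ) :
    Cert G (p + 1) a (fun x => min (φ x) p) where
  lev i hi := by
    have := h.lev i hi
    change min (φ (a i)) p = i
    omega
  lip x y hxy := by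
    have := h.lip x y hxy
    change min (φ y) p ≤ min (φ x) p + 1
    omega
  uniq i hi y hy hφ := by
    have h1 := h.lip _ _ hy
    rw [h.lev i (by omega)] at h1
    have h2 : min (φ y) p = i + 1 := hφ
    exact h.uniq i hi y hy (by omega)
  one := h.one

theorem Cert.isUSP {G : MG V} {k : ℕ} {a : ℕ → V} {φ : V → ℕ} (h : Cert G (k + 1) a φ) :
    IsUSP G k (fun i => a i.val) (fun _ => 0) := by
  have hup : ∀ (k' : ℕ) (a' : Fin (k' + 1) → V) (e' : Fin k' → ℕ), IsPath G k' a' e' →
      a' 0 = a 0 → ∀ i, φ (a' i) ≤ i.val := by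
    intro k' a' e' hp h0 i
    induction i using Fin.induction with
    | zero =>
      rw [h0, h.lev 0 (by omega)]
      exact Nat.zero_le _
    | succ i ih =>
      have h1 := h.lip _ _ (lt_of_le_of_lt (Nat.zero_le _) (hp.2 i))
      rw [Fin.val_succ]
      rw [Fin.val_castSucc] at ih
      omega
  refine ⟨⟨?_, ?_⟩, ?_, ?_⟩
  · intro i j hij
    have h1 := h.lev i.val i.isLt
    have h2 := h.lev j.val j.isLt
    have h3 : a i.val = a j.val := hij
    rw [h3, h2] at h1
    exact Fin.ext h1.symm
  · intro i
    have := h.one i.val (by omega)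
    simp only [Fin.val_castSucc, Fin.val_succ]
    omega
  · intro k' a' e' hp h0 hl
    have h1 := hup k' a' e' hp h0 (Fin.last k')
    rw [hl] at h1
    simp only [Fin.val_last] at h1
    rw [h.lev k (by omega)] at h1
    exact h1
  · intro a' e' hp h0 hl
    have hlow : ∀ i, i.val ≤ φ (a' i) := by
      intro i
      induction i using Fin.reverseInduction with
      | last =>
        rw [hl]
        simp only [Fin.val_last]
        rw [h.lev k (by omega)]
      | cast i ih =>
        have h1 := h.lip _ _ (lt_of_le_of_lt (Nat.zero_le _) (hp.2 i))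
        rw [Fin.val_succ] at ih
        rw [Fin.val_castSucc]
        omega
    have heq : ∀ i, a' i = a i.val := by
      intro i
      induction i using Fin.induction with
      | zero => rw [h0]
      | succ i ih =>
        have h1 : 0 < G.mult (a' i.castSucc) (a' i.succ) :=
          lt_of_le_of_lt (Nat.zero_le _) (hp.2 i)
        rw [ih] at h1
        have h2 := hup k a' e' hp h0 i.succ
        have h3 := hlow i.succ
        rw [Fin.val_succ] at h2 h3
        have h4 := h.uniq i.val (by omega) (a' i.succ) h1 (by omega)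
        rw [h4, Fin.val_succ]
    refine ⟨funext heq, ?_⟩
    funext i
    have h1 := hp.2 i
    rw [heq, heq] at h1
    have h2 := h.one i.val (by omega)
    rw [Fin.val_castSucc, Fin.val_succ, h2] at h1
    omega

/-- The underlying simple graph. -/
def und (G : MG V) : SimpleGraph V where
  Adj x y := 0 < G.mult x y
  symm := ⟨fun x y h => by rw [G.symm y x]; exact h⟩
  loopless := ⟨fun x h => by rw [G.loopless x] at h; exact lt_irrefl _ h⟩

theorem path_of_walk (G : MG V) {x y : V} (w : (und G).Walk x y) (hw : w.IsPath) :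
    IsPath G w.length (fun i => w.getVert i.val) (fun _ => 0) := by
  refine ⟨?_, ?_⟩
  · intro i j hij
    have h := hw.getVert_injOn (show i.val ≤ w.length from Nat.lt_succ_iff.1 i.isLt)
      (show j.val ≤ w.length from Nat.lt_succ_iff.1 j.isLt) hij
    exact Fin.ext h
  · intro i
    have := w.adj_getVert_succ i.isLt
    exact this

theorem IsUSP.cert {G : MG V} {k : ℕ} {a : Fin (k + 1) → V} {e : Fin k → ℕ}
    (h : IsUSP G k a e) : ∃ (A : ℕ → V) (φ : V → ℕ), Cert G (k + 1) A φ := by
  classical
  obtain ⟨⟨hinj, hadj⟩, hshort, huniq⟩ := h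
  have hadj' : ∀ i : Fin k, (und G).Adj (a i.castSucc) (a i.succ) :=
    fun i => lt_of_le_of_lt (Nat.zero_le _) (hadj i)
  -- walks along the path
  have hfwd : ∀ i : Fin (k + 1), ∃ w : (und G).Walk (a 0) (a i), w.length = i.val := by
    intro i
    induction i using Fin.induction with
    | zero => exact ⟨SimpleGraph.Walk.nil, rfl⟩
    | succ i ih =>
      obtain ⟨w, hw⟩ := ih
      refine ⟨w.concat (hadj' i), ?_⟩
      rw [SimpleGraph.Walk.length_concat, hw, Fin.val_succ, Fin.val_castSucc]
  have hbwd : ∀ i : Fin (k + 1), ∃ w : (und G).Walk (a i) (a (Fin.last k)),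
      w.length = k - i.val := by
    intro i
    induction i using Fin.reverseInduction with
    | last => exact ⟨SimpleGraph.Walk.nil, by simp⟩
    | cast i ih =>
      obtain ⟨w, hw⟩ := ih
      refine ⟨SimpleGraph.Walk.cons (hadj' i) w, ?_⟩
      rw [SimpleGraph.Walk.length_cons, hw, Fin.val_succ, Fin.val_castSucc]
      have := i.isLt
      omega
  have hreach : ∀ i, (und G).Reachable (a i) (a (Fin.last k)) := fun i => ⟨(hbwd i).choose⟩
  have hdist0 : k ≤ (und G).dist (a 0) (a (Fin.last k)) := by
    obtain ⟨w, hw, hwl⟩ := (hreach 0).exists_path_of_dist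
    have h1 := hshort w.length _ _ (path_of_walk G w hw) (by simp) (by simp)
    omega
  have hdist : ∀ i : Fin (k + 1), (und G).dist (a i) (a (Fin.last k)) = k - i.val := by
    intro i
    obtain ⟨w1, hw1⟩ := hfwd i
    obtain ⟨w2, hw2⟩ := hbwd i
    have h1 : (und G).dist (a 0) (a i) ≤ i.val := hw1 ▸ SimpleGraph.dist_le w1
    have h2 : (und G).dist (a i) (a (Fin.last k)) ≤ k - i.val := hw2 ▸ SimpleGraph.dist_le w2
    have h3 : (und G).dist (a 0) (a (Fin.last k)) ≤
        (und G).dist (a 0) (a i) + (und G).dist (a i) (a (Fin.last k)) := by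
      have hr1 : (und G).Reachable (a 0) (a i) := w1.reachable
      obtain ⟨p, hp⟩ := hr1.exists_walk_length_eq_dist
      obtain ⟨q, hq⟩ := (hreach i).exists_walk_length_eq_dist
      have := SimpleGraph.dist_le (p.append q)
      rw [SimpleGraph.Walk.length_append, hp, hq] at this
      exact this
    have := i.isLt
    omega
  have hd0 : (und G).dist (a 0) (a (Fin.last k)) = k := by
    have := hdist 0
    simpa using this
  let A : ℕ → V := fun i => a ⟨min i k, by omega⟩
  have hA : ∀ i : Fin (k + 1), A i.val = a i := by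
    intro i
    simp only [A]
    congr 1
    apply Fin.ext
    have := i.isLt
    simp only
    omega
  let φ : V → ℕ := fun x => if (und G).Reachable x (a (Fin.last k)) then
    k - (und G).dist x (a (Fin.last k)) else 0
  refine ⟨A, φ, ?_, ?_, ?_, ?_⟩
  · intro i hi
    have h1 := hA ⟨i, hi⟩
    simp only at h1
    rw [h1]
    simp only [φ]
    rw [if_pos (hreach _), hdist]
    simp only
    omega
  · intro x y hxy
    simp only [φ]
    by_cases hy : (und G).Reachable y (a (Fin.last k))
    · have hadjxy : (und G).Adj x y := hxy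
      have hx : (und G).Reachable x (a (Fin.last k)) := hadjxy.reachable.trans hy
      rw [if_pos hy, if_pos hx]
      obtain ⟨q, hq⟩ := hy.exists_walk_length_eq_dist
      have := SimpleGraph.dist_le (SimpleGraph.Walk.cons hadjxy q)
      rw [SimpleGraph.Walk.length_cons, hq] at this
      omega
    · rw [if_neg hy]
      exact Nat.zero_le _
  · intro i hi y hy hφ
    have hik : i < k := by omega
    have h1 := hA ⟨i, by omega⟩
    simp only at h1
    rw [h1] at hy
    simp only [φ] at hφ
    by_cases hyr : (und G).Reachable y (a (Fin.last k))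
    · rw [if_pos hyr] at hφ
      obtain ⟨w1, hw1⟩ := hfwd ⟨i, by omega⟩
      simp only at hw1
      obtain ⟨q, hq⟩ := hyr.exists_walk_length_eq_dist
      have hadjy : (und G).Adj (a ⟨i, by omega⟩) y := hy
      let W : (und G).Walk (a 0) (a (Fin.last k)) :=
        w1.append (SimpleGraph.Walk.cons hadjy q)
      have hWl : W.length = k := by
        simp only [W]
        rw [SimpleGraph.Walk.length_append, SimpleGraph.Walk.length_cons, hw1, hq]
        omega
      have hWp : W.IsPath := W.isPath_of_length_eq_dist (by rw [hWl, hd0])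
      have hWi : W.getVert (i + 1) = y := by
        simp only [W]
        rw [SimpleGraph.Walk.getVert_append, if_neg (by omega), hw1]
        have : i + 1 - i = 1 := by omega
        rw [this]
        simp
      have hpath := path_of_walk G W hWp
      have hpath' : IsPath G k (fun i : Fin (k + 1) => W.getVert i.val) (fun _ => 0) := by
        refine ⟨?_, ?_⟩
        · intro s t hst
          have h := hWp.getVert_injOn
            (show s.val ∈ {i | i ≤ W.length} by
              have := s.isLt
              rw [Set.mem_ofPred_eq, hWl]; omega)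
            (show t.val ∈ {i | i ≤ W.length} by
              have := t.isLt
              rw [Set.mem_ofPred_eq, hWl]; omega) hst
          exact Fin.ext h
        · intro s
          have := W.adj_getVert_succ (i := s.val) (by rw [hWl]; exact s.isLt)
          exact this
      have hlast : W.getVert k = a (Fin.last k) := by
        have := W.getVert_length
        rw [hWl] at this
        exact this
      have h2 := huniq _ _ hpath' (by simp) (by
        simp only [Fin.val_last]
        exact hlast)
      have h3 := congrFun h2.1 ⟨i + 1, by omega⟩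
      simp only at h3
      rw [hWi] at h3
      have h4 := hA ⟨i + 1, by omega⟩
      simp only at h4
      rw [h4]
      exact h3
    · rw [if_neg hyr] at hφ
      omega
  · intro i hi
    have hik : i < k := by omega
    have h1 := hA ⟨i, by omega⟩
    have h2 := hA ⟨i + 1, by omega⟩
    simp only at h1 h2
    rw [h1, h2]
    have h3 := hadj ⟨i, hik⟩
    have h3' : e ⟨i, hik⟩ < G.mult (a ⟨i, by omega⟩) (a ⟨i + 1, by omega⟩) := h3
    by_contra hne
    have hge : 2 ≤ G.mult (a ⟨i, by omega⟩) (a ⟨i + 1, by omega⟩) := by omega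
    let e' : Fin k → ℕ := Function.update e ⟨i, hik⟩ (if e ⟨i, hik⟩ = 0 then 1 else 0)
    have hp' : IsPath G k a e' := by
      refine ⟨hinj, ?_⟩
      intro j
      by_cases hj : j = ⟨i, hik⟩
      · subst hj
        simp only [e', Function.update_self]
        have : (if e ⟨i, hik⟩ = 0 then 1 else 0) < 2 := by split_ifs <;> omega
        exact lt_of_lt_of_le this hge
      · simp only [e']
        rw [Function.update_of_ne hj]
        exact hadj j
    have h5 := (huniq a e' hp' rfl rfl).2
    have h6 := congrFun h5 ⟨i, hik⟩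
    simp only [e', Function.update_self] at h6
    split_ifs at h6 <;> omega

theorem bdd [Finite V] (G : MG V) :
    BddAbove {p | ∃ (k : ℕ) (a : Fin (k + 1) → V) (e : Fin k → ℕ), IsUSP G k a e ∧ p = k + 1} := by
  refine ⟨Nat.card V, ?_⟩
  rintro p ⟨k, a, e, h, rfl⟩
  have := Nat.card_le_card_of_injective a h.1.1
  simpa using this

theorem le_usp [Finite V] {G : MG V} {p : ℕ} {a : ℕ → V} {φ : V → ℕ} (h : Cert G p a φ) :
    p ≤ usp G := by
  cases p with
  | zero => exact Nat.zero_le _
  | succ k => exact le_csSup (bdd G) ⟨k, _, _, h.isUSP, rfl⟩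

theorem usp_le_card [Finite V] (G : MG V) : usp G ≤ Nat.card V := by
  apply csSup_le'
  rintro p ⟨k, a, e, h, rfl⟩
  have := Nat.card_le_card_of_injective a h.1.1
  simpa using this

theorem one_le_usp [Finite V] [Nonempty V] (G : MG V) : 1 ≤ usp G := by
  obtain ⟨v⟩ := ‹Nonempty V›
  have h : Cert G 1 (fun _ => v) (fun _ => 0) := by
    refine ⟨?_, ?_, ?_, ?_⟩
    · intro i hi; omega
    · intro x y _; omega
    · intro i hi; omega
    · intro i hi; omega
  exact le_usp h

theorem exists_cert [Finite V] [Nonempty V] (G : MG V) {p : ℕ} (hp : p ≤ usp G) :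
    ∃ (a : ℕ → V) (φ : V → ℕ), Cert G p a φ := by
  have hne : {p | ∃ (k : ℕ) (a : Fin (k + 1) → V) (e : Fin k → ℕ),
      IsUSP G k a e ∧ p = k + 1}.Nonempty := by
    by_contra hcon
    rw [Set.not_nonempty_iff_eq_empty] at hcon
    have h1 := one_le_usp G
    unfold usp at h1
    rw [hcon] at h1
    simp at h1
  have hmem := Nat.sSup_mem hne (bdd G)
  obtain ⟨k, a, e, h, hk⟩ := hmem
  have hk' : usp G = k + 1 := hk
  obtain ⟨A, φ, hc⟩ := h.cert
  exact ⟨A, φ, hc.mono (by omega)⟩

open Classical in
/-- Add an edge between `x` and `y` (if `c` holds and `x ≠ y`). -/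
noncomputable def addE (G : MG V) (c : Prop) (x y : V) : MG V where
  mult a b := G.mult a b + if c ∧ x ≠ y ∧ ((a = x ∧ b = y) ∨ (a = y ∧ b = x)) then 1 else 0
  symm a b := by
    have h : (c ∧ x ≠ y ∧ ((a = x ∧ b = y) ∨ (a = y ∧ b = x))) ↔
        (c ∧ x ≠ y ∧ ((b = x ∧ a = y) ∨ (b = y ∧ a = x))) := by
      tauto
    simp only [h, G.symm a b]
  loopless a := by
    rw [G.loopless a, if_neg]
    rintro ⟨_, hne, ⟨h1, h2⟩ | ⟨h1, h2⟩⟩
    · exact hne (h1.symm.trans h2)
    · exact hne (h2.symm.trans h1)

theorem addE_super (G : MG V) (c : Prop) (x y : V) : Super G (addE G c x y) :=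
  fun _ _ => Nat.le_add_right _ _

theorem addE_self (G : MG V) {x y : V} (h : x ≠ y) :
    (addE G True x y).mult x y = G.mult x y + 1 := by
  simp [addE, h]

theorem addE_pos {G : MG V} {c : Prop} {x y a b : V} (h : 0 < (addE G c x y).mult a b) :
    0 < G.mult a b ∨ (c ∧ x ≠ y ∧ ((a = x ∧ b = y) ∨ (a = y ∧ b = x))) := by
  classical
  simp only [addE] at h
  split_ifs at h with h1
  · exact Or.inr h1
  · exact Or.inl h

theorem Super.trans {G1 G2 G3 : MG V} (h1 : Super G1 G2) (h2 : Super G2 G3) : Super G1 G3 :=
  fun x y => (h1 x y).trans (h2 x y)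

theorem Super.refl (G : MG V) : Super G G := fun _ _ => le_rfl

/-- Skipping the path vertex of index `s`. -/
theorem Cert.skip {G : MG V} {p : ℕ} {a : ℕ → V} {φ : V → ℕ} (h : Cert G (p + 1) a φ)
    (s : ℕ) (hs : s < p + 1) : ∃ G1 : MG V, Super G G1 ∧
      Cert G1 p (fun i => if i < s then a i else a (i + 1))
        (fun x => if φ x < s then φ x else φ x - 1) := by
  classical
  refine ⟨addE G (0 < s ∧ s < p) (a (s - 1)) (a (s + 1)), addE_super _ _ _ _, ?_, ?_, ?_, ?_⟩
  · intro i hi
    change (if φ (if i < s then a i else a (i + 1)) < s then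
      φ (if i < s then a i else a (i + 1)) else φ (if i < s then a i else a (i + 1)) - 1) = i
    by_cases his : i < s
    · rw [if_pos his, h.lev i (by omega), if_pos his]
    · rw [if_neg his, h.lev (i + 1) (by omega), if_neg (by omega)]
      omega
  · intro x y hxy
    change (if φ y < s then φ y else φ y - 1) ≤ (if φ x < s then φ x else φ x - 1) + 1
    rcases addE_pos hxy with hxy | ⟨⟨hc1, hc2⟩, hne, ⟨h1, h2⟩ | ⟨h1, h2⟩⟩
    · have := h.lip x y hxy
      split_ifs <;> omega
    · have h3 := h.lev (s - 1) (by omega)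
      have h4 := h.lev (s + 1) (by omega)
      rw [h1, h2, h3, h4]
      split_ifs <;> omega
    · have h3 := h.lev (s - 1) (by omega)
      have h4 := h.lev (s + 1) (by omega)
      rw [h1, h2, h3, h4]
      split_ifs <;> omega
  · intro i hi y hy hφ
    change (if φ y < s then φ y else φ y - 1) = i + 1 at hφ
    change y = if i + 1 < s then a (i + 1) else a (i + 1 + 1)
    change 0 < (addE G (0 < s ∧ s < p) (a (s - 1)) (a (s + 1))).mult
      (if i < s then a i else a (i + 1)) y at hy
    by_cases his : i < s
    · rw [if_pos his] at hy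
      rcases addE_pos hy with hy | ⟨⟨hc1, hc2⟩, hne, ⟨h1, h2⟩ | ⟨h1, h2⟩⟩
      · have h5 := h.lip _ _ hy
        rw [h.lev i (by omega)] at h5
        split_ifs at hφ with h6
        · rw [if_pos (by omega)]
          exact h.uniq i (by omega) y hy hφ
        · omega
      · have h3 := h.lev (s - 1) (by omega)
        have h4 := h.lev i (by omega)
        rw [h1, h3] at h4
        rw [if_neg (by omega), h2]
        congr 1
        omega
      · have h3 := h.lev (s + 1) (by omega)
        have h4 := h.lev i (by omega)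
        rw [h1, h3] at h4
        omega
    · rw [if_neg his] at hy
      rw [if_neg (by omega)]
      rcases addE_pos hy with hy | ⟨⟨hc1, hc2⟩, hne, ⟨h1, h2⟩ | ⟨h1, h2⟩⟩
      · exact h.uniq (i + 1) (by omega) y hy (by split_ifs at hφ <;> omega)
      · have h3 := h.lev (s - 1) (by omega)
        have h4 := h.lev (i + 1) (by omega)
        rw [h1, h3] at h4
        omega
      · have h3 := h.lev (s - 1) (by omega)
        rw [h2, h3] at hφ
        split_ifs at hφ <;> omega
  · intro i hi
    change (addE G (0 < s ∧ s < p) (a (s - 1)) (a (s + 1))).mult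
      (if i < s then a i else a (i + 1)) (if i + 1 < s then a (i + 1) else a (i + 1 + 1)) = 1
    have hlevne : ∀ j k : ℕ, j < p + 1 → k < p + 1 → j ≠ k → a j ≠ a k := by
      intro j k hj hk hjk he
      have h1 := h.lev j hj
      rw [he, h.lev k hk] at h1
      exact hjk h1.symm
    simp only [addE]
    by_cases h1 : i + 1 < s
    · rw [if_pos (by omega), if_pos h1, h.one i (by omega), if_neg]
      rintro ⟨⟨hc1, hc2⟩, hne, ⟨h2, h3⟩ | ⟨h2, h3⟩⟩
      · exact hlevne (i + 1) (s + 1) (by omega) (by omega) (by omega) h3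
      · exact hlevne i (s + 1) (by omega) (by omega) (by omega) h2
    · by_cases h2 : i < s
      · have h3 : s = i + 1 := by omega
        subst h3
        rw [if_pos h2, if_neg h1]
        have h4 : G.mult (a i) (a (i + 1 + 1)) = 0 := by
          by_contra hne
          have := h.lip _ _ (Nat.pos_of_ne_zero hne)
          rw [h.lev i (by omega), h.lev (i + 1 + 1) (by omega)] at this
          omega
        rw [h4, if_pos]
        refine ⟨⟨by omega, by omega⟩, hlevne _ _ (by omega) (by omega) (by omega), Or.inl ⟨?_, rfl⟩⟩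
        congr 1
      · rw [if_neg h2, if_neg h1, h.one (i + 1) (by omega), if_neg]
        rintro ⟨⟨hc1, hc2⟩, hne, ⟨h3, h4⟩ | ⟨h3, h4⟩⟩
        · exact hlevne (i + 1) (s - 1) (by omega) (by omega) (by omega) h3
        · exact hlevne (i + 1 + 1) (s - 1) (by omega) (by omega) (by omega) h4

/-- Restricting to the complement of a vertex off the path. -/
theorem Cert.restrict {G : MG V} {p : ℕ} {a : ℕ → V} {φ : V → ℕ} (h : Cert G p a φ) (v : V)
    (hv : ∀ i, i < p → a i ≠ v) (hp : 0 < p) :
    ∃ (a' : ℕ → {w : V // w ≠ v}) (φ' : {w : V // w ≠ v} → ℕ), Cert (delVertex G v) p a' φ' := by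
  classical
  let a' : ℕ → {w : V // w ≠ v} := fun i => if hi : a i ≠ v then ⟨a i, hi⟩ else ⟨a 0, hv 0 hp⟩
  have ha' : ∀ i, i < p → (a' i).1 = a i := by
    intro i hi
    simp only [a']
    rw [dif_pos (hv i hi)]
  refine ⟨a', fun w => φ w.1, ?_, ?_, ?_, ?_⟩
  · intro i hi
    change φ (a' i).1 = i
    rw [ha' i hi, h.lev i hi]
  · intro x y hxy
    exact h.lip _ _ hxy
  · intro i hi y hy hφ
    apply Subtype.ext
    rw [ha' (i + 1) hi]
    apply h.uniq i hi y.1 _ hφ
    have h1 : 0 < G.mult (a' i).1 y.1 := hy
    rw [ha' i (by omega)] at h1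
    exact h1
  · intro i hi
    change G.mult (a' i).1 (a' (i + 1)).1 = 1
    rw [ha' i (by omega), ha' (i + 1) hi, h.one i hi]

/-- Merging two vertices of the same level off the path. -/
theorem Cert.mergeOff {G : MG V} {p : ℕ} {a : ℕ → V} {φ : V → ℕ} (h : Cert G p a φ) (u v : V)
    (huv : u ≠ v) (hφ : φ u = φ v) (hu : ∀ i, i < p → a i ≠ u) (hv : ∀ i, i < p → a i ≠ v) :
    ∃ (a' : ℕ → {w : V // w ≠ v}) (φ' : {w : V // w ≠ v} → ℕ), Cert (contract G u v) p a' φ' := by
  classical
  let a' : ℕ → {w : V // w ≠ v} := fun i => if hi : a i ≠ v then ⟨a i, hi⟩ else ⟨u, huv⟩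
  have ha' : ∀ i, i < p → (a' i).1 = a i := by
    intro i hi
    simp only [a']
    rw [dif_pos (hv i hi)]
  have hpos : ∀ x y : {w : V // w ≠ v}, 0 < (contract G u v).mult x y →
      0 < G.mult x.1 y.1 ∨ (x.1 = u ∧ 0 < G.mult v y.1) ∨ (y.1 = u ∧ 0 < G.mult x.1 v) := by
    intro x y hxy
    by_contra hcon
    push Not at hcon
    obtain ⟨g1, g2, g3⟩ := hcon
    simp only [contract] at hxy
    have e1 : (if x.1 = u then G.mult v y.1 else 0) = 0 := by
      split_ifs with h1
      · exact Nat.le_zero.1 (g2 h1)
      · rfl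
    have e2 : (if y.1 = u then G.mult x.1 v else 0) = 0 := by
      split_ifs with h1
      · exact Nat.le_zero.1 (g3 h1)
      · rfl
    rw [e1, e2] at hxy
    split_ifs at hxy <;> omega
  refine ⟨a', fun w => φ w.1, ?_, ?_, ?_, ?_⟩
  · intro i hi
    change φ (a' i).1 = i
    rw [ha' i hi, h.lev i hi]
  · intro x y hxy
    change φ y.1 ≤ φ x.1 + 1
    rcases hpos x y hxy with h1 | ⟨h1, h2⟩ | ⟨h1, h2⟩
    · exact h.lip _ _ h1
    · rw [h1, hφ]
      exact h.lip _ _ h2
    · rw [h1, hφ]
      exact h.lip _ _ h2
  · intro i hi y hy hφy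
    have hφy' : φ y.1 = i + 1 := hφy
    apply Subtype.ext
    rw [ha' (i + 1) hi]
    rcases hpos _ _ hy with h1 | ⟨h1, h2⟩ | ⟨h1, h2⟩
    · rw [ha' i (by omega)] at h1
      exact h.uniq i hi y.1 h1 hφy'
    · rw [ha' i (by omega)] at h1
      exact absurd h1 (hu i (by omega))
    · rw [ha' i (by omega)] at h2
      rw [h1, hφ] at hφy'
      exact absurd (h.uniq i hi v h2 hφy').symm (hv (i + 1) hi)
  · intro i hi
    have hne : a' i ≠ a' (i + 1) := by
      intro he
      have h1 := congrArg (fun w : {w : V // w ≠ v} => φ w.1) he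
      change φ (a' i).1 = φ (a' (i + 1)).1 at h1
      rw [ha' i (by omega), ha' (i + 1) hi, h.lev i (by omega), h.lev (i + 1) hi] at h1
      omega
    simp only [contract]
    rw [if_neg hne, ha' i (by omega), ha' (i + 1) hi, if_neg (hu i (by omega)),
      if_neg (hu (i + 1) hi), h.one i hi]

/-- Merging two consecutive vertices of the path. -/
theorem Cert.mergeOn {G : MG V} {p : ℕ} {a : ℕ → V} {φ : V → ℕ} (h : Cert G (p + 1) a φ)
    (u v : V) (huv : u ≠ v) (s t : ℕ) (hs : s + 1 < p + 1)
    (hst : (u = a s ∧ v = a (s + 1) ∧ t = s + 1) ∨ (u = a (s + 1) ∧ v = a s ∧ t = s)) :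
    ∃ (a' : ℕ → {w : V // w ≠ v}) (φ' : {w : V // w ≠ v} → ℕ),
      Cert (contract G u v) p a' φ' := by
  classical
  have hlevne : ∀ j k : ℕ, j < p + 1 → k < p + 1 → j ≠ k → a j ≠ a k := by
    intro j k hj hk hjk he
    have h1 := h.lev j hj
    rw [he, h.lev k hk] at h1
    exact hjk h1.symm
  have hzero : ∀ j k : ℕ, j < p + 1 → k < p + 1 → j + 1 < k → G.mult (a j) (a k) = 0 := by
    intro j k hj hk hjk
    by_contra hne
    have := h.lip _ _ (Nat.pos_of_ne_zero hne)
    rw [h.lev j hj, h.lev k hk] at this
    omega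
  have hvt : v = a t := by
    rcases hst with ⟨_, h2, h3⟩ | ⟨_, h2, h3⟩ <;> rw [h2, h3]
  have htp : t < p + 1 := by
    rcases hst with ⟨_, h2, h3⟩ | ⟨_, h2, h3⟩ <;> omega
  have hts : t = s ∨ t = s + 1 := by
    rcases hst with ⟨_, h2, h3⟩ | ⟨_, h2, h3⟩ <;> omega
  let b : ℕ → V := fun i => if i < t then a i else a (i + 1)
  have hb : ∀ i, i < p → b i ≠ v := by
    intro i hi
    simp only [b]
    rw [hvt]
    split_ifs with h1
    · exact hlevne _ _ (by omega) htp (by omega)
    · exact hlevne _ _ (by omega) htp (by omega)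
  have hbs : b s = u := by
    simp only [b]
    rcases hst with ⟨h1, h2, h3⟩ | ⟨h1, h2, h3⟩
    · rw [if_pos (by omega), h1]
    · rw [if_neg (by omega), h1]
  let a' : ℕ → {w : V // w ≠ v} := fun i => if hi : b i ≠ v then ⟨b i, hi⟩ else ⟨u, huv⟩
  have ha' : ∀ i, i < p → (a' i).1 = b i := by
    intro i hi
    simp only [a']
    rw [dif_pos (hb i hi)]
  have hpos : ∀ x y : {w : V // w ≠ v}, 0 < (contract G u v).mult x y →
      0 < G.mult x.1 y.1 ∨ (x.1 = u ∧ 0 < G.mult v y.1) ∨ (y.1 = u ∧ 0 < G.mult x.1 v) := by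
    intro x y hxy
    by_contra hcon
    push Not at hcon
    obtain ⟨g1, g2, g3⟩ := hcon
    simp only [contract] at hxy
    have e1 : (if x.1 = u then G.mult v y.1 else 0) = 0 := by
      split_ifs with h1
      · exact Nat.le_zero.1 (g2 h1)
      · rfl
    have e2 : (if y.1 = u then G.mult x.1 v else 0) = 0 := by
      split_ifs with h1
      · exact Nat.le_zero.1 (g3 h1)
      · rfl
    rw [e1, e2] at hxy
    split_ifs at hxy <;> omega
  -- levels
  have hφu : φ u = s ∨ φ u = s + 1 := by
    rcases hst with ⟨h1, h2, h3⟩ | ⟨h1, h2, h3⟩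
    · left; rw [h1, h.lev s (by omega)]
    · right; rw [h1, h.lev (s + 1) (by omega)]
  have hφv : φ v = s ∨ φ v = s + 1 := by
    rcases hst with ⟨h1, h2, h3⟩ | ⟨h1, h2, h3⟩
    · right; rw [h2, h.lev (s + 1) (by omega)]
    · left; rw [h2, h.lev s (by omega)]
  have hblt : ∀ i, i < s → b i = a i := by
    intro i hi
    simp only [b]
    rw [if_pos (by omega)]
  have hbgt : ∀ i, s < i → b i = a (i + 1) := by
    intro i hi
    simp only [b]
    rw [if_neg (by omega)]
  -- values of the new level function along the path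
  have hψ : ∀ i, i < p → (if φ (b i) ≤ s then φ (b i) else φ (b i) - 1) = i := by
    intro i hi
    rcases lt_trichotomy i s with h1 | h1 | h1
    · rw [hblt i h1, h.lev i (by omega), if_pos (by omega)]
    · rw [h1, hbs]
      rcases hφu with h2 | h2 <;> rw [h2]
      · rw [if_pos le_rfl]
      · rw [if_neg (by omega)]; omega
    · rw [hbgt i h1, h.lev (i + 1) (by omega), if_neg (by omega)]; omega
  refine ⟨a', fun w => if φ w.1 ≤ s then φ w.1 else φ w.1 - 1, ?_, ?_, ?_, ?_⟩
  · intro i hi
    change (if φ (a' i).1 ≤ s then φ (a' i).1 else φ (a' i).1 - 1) = i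
    rw [ha' i hi, hψ i hi]
  · intro x y hxy
    change (if φ y.1 ≤ s then φ y.1 else φ y.1 - 1) ≤
      (if φ x.1 ≤ s then φ x.1 else φ x.1 - 1) + 1
    rcases hpos x y hxy with h1 | ⟨h1, h2⟩ | ⟨h1, h2⟩
    · have := h.lip _ _ h1
      split_ifs <;> omega
    · have h3 := h.lip _ _ h2
      rw [h1]
      rcases hφu with h4 | h4 <;> rcases hφv with h5 | h5 <;> rw [h4] <;> split_ifs <;> omega
    · have h3 := h.lip _ _ h2
      rw [h1]
      rcases hφu with h4 | h4 <;> rcases hφv with h5 | h5 <;> rw [h4] <;> split_ifs <;> omega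
  · intro i hi y hy hφy
    have hφy' : (if φ y.1 ≤ s then φ y.1 else φ y.1 - 1) = i + 1 := hφy
    apply Subtype.ext
    rw [ha' (i + 1) hi]
    have hyv := y.2
    rcases lt_trichotomy i s with his | his | his
    · rcases hpos _ _ hy with h1 | ⟨h1, h2⟩ | ⟨h1, h2⟩
      · rw [ha' i (by omega), hblt i his] at h1
        have h3 := h.lip _ _ h1
        rw [h.lev i (by omega)] at h3
        have h4 : φ y.1 = i + 1 := by split_ifs at hφy' <;> omega
        have h5 := h.uniq i (by omega) y.1 h1 h4
        by_cases h6 : i + 1 < t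
        · simp only [b]
          rw [if_pos h6, h5]
        · exfalso
          apply hyv
          rw [h5, hvt]
          congr 1
          omega
      · exfalso
        rw [ha' i (by omega), ← hbs, hblt i his] at h1
        have h3 := hψ s (by omega)
        rw [← h1, h.lev i (by omega)] at h3
        split_ifs at h3 <;> omega
      · rw [h1]
        rw [h1] at hφy'
        have h3 : i + 1 = s := by
          rcases hφu with h4 | h4 <;> rw [h4] at hφy' <;> split_ifs at hφy' <;> omega
        rw [h3, hbs]
    · subst his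
      have hφy2 : φ y.1 = i + 2 := by split_ifs at hφy' <;> omega
      rw [hbgt (i + 1) (by omega)]
      rcases hpos _ _ hy with h1 | ⟨h1, h2⟩ | ⟨h1, h2⟩
      · rw [ha' i (by omega), hbs] at h1
        rcases hst with ⟨h3, h4, h5⟩ | ⟨h3, h4, h5⟩
        · rw [h3] at h1
          have h6 := h.lip _ _ h1
          rw [h.lev i (by omega)] at h6
          omega
        · rw [h3] at h1
          exact h.uniq (i + 1) (by omega) y.1 h1 hφy2
      · rcases hst with ⟨h3, h4, h5⟩ | ⟨h3, h4, h5⟩
        · have h7 : ∀ z, 0 < G.mult v z → 0 < G.mult (a (i + 1)) z := by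
            intro z hz
            rw [h4] at hz
            exact hz
          exact h.uniq (i + 1) (by omega) y.1 (h7 _ h2) hφy2
        · have h7 : ∀ z, 0 < G.mult v z → 0 < G.mult (a i) z := by
            intro z hz
            rw [h4] at hz
            exact hz
          have h6 := h.lip _ _ (h7 _ h2)
          rw [h.lev i (by omega)] at h6
          omega
      · rw [h1] at hφy2
        omega
    · have hφy2 : φ y.1 = i + 2 := by split_ifs at hφy' <;> omega
      rw [hbgt (i + 1) (by omega)]
      rcases hpos _ _ hy with h1 | ⟨h1, h2⟩ | ⟨h1, h2⟩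
      · rw [ha' i (by omega), hbgt i his] at h1
        exact h.uniq (i + 1) (by omega) y.1 h1 hφy2
      · exfalso
        rw [ha' i (by omega), hbgt i his] at h1
        have h3 := h.lev (i + 1) (by omega)
        rw [h1] at h3
        omega
      · rw [h1] at hφy2
        omega
  · intro i hi
    have hne : a' i ≠ a' (i + 1) := by
      intro he
      have h1 := congrArg
        (fun w : {w : V // w ≠ v} => if φ w.1 ≤ s then φ w.1 else φ w.1 - 1) he
      change (if φ (a' i).1 ≤ s then φ (a' i).1 else φ (a' i).1 - 1) =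
        (if φ (a' (i + 1)).1 ≤ s then φ (a' (i + 1)).1 else φ (a' (i + 1)).1 - 1) at h1
      rw [ha' i (by omega), ha' (i + 1) hi, hψ i (by omega), hψ (i + 1) hi] at h1
      omega
    simp only [contract]
    rw [if_neg hne, ha' i (by omega), ha' (i + 1) hi]
    rcases lt_trichotomy i s with his | his | his
    · by_cases h1 : i + 1 = s
      · rw [h1, hbs, hblt i his, if_pos rfl, if_neg (by
          intro he
          rw [← he, h.lev i (by omega)] at hφu
          omega)]
        rcases hst with ⟨h3, h4, h5⟩ | ⟨h3, h4, h5⟩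
        · rw [h3, h4, hzero i (s + 1) (by omega) (by omega) (by omega), ← h1,
            h.one i (by omega)]
        · rw [h3, h4, hzero i (s + 1) (by omega) (by omega) (by omega), ← h1,
            h.one i (by omega)]
      · rw [hblt i his, hblt (i + 1) (by omega), if_neg (by
          intro he
          rw [← he, h.lev i (by omega)] at hφu
          omega), if_neg (by
          intro he
          rw [← he, h.lev (i + 1) (by omega)] at hφu
          omega), h.one i (by omega)]
    · subst his
      rw [hbs, hbgt (i + 1) (by omega), if_pos rfl, if_neg (by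
          intro he
          rw [← he, h.lev (i + 1 + 1) (by omega)] at hφu
          omega)]
      rcases hst with ⟨h3, h4, h5⟩ | ⟨h3, h4, h5⟩
      · rw [h3, h4, hzero i (i + 1 + 1) (by omega) (by omega) (by omega),
            h.one (i + 1) (by omega)]
      · rw [h3, h4, hzero i (i + 1 + 1) (by omega) (by omega) (by omega),
            h.one (i + 1) (by omega)]
    · rw [hbgt i his, hbgt (i + 1) (by omega), if_neg (by
          intro he
          rw [← he, h.lev (i + 1) (by omega)] at hφu
          omega), if_neg (by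
          intro he
          rw [← he, h.lev (i + 1 + 1) (by omega)] at hφu
          omega), h.one (i + 1) (by omega)]

/-- `HasOrder G p`: there is a certificate of order `p`. -/
def HasOrder (G : MG V) (p : ℕ) : Prop := p = 0 ∨ ∃ (a : ℕ → V) (φ : V → ℕ), Cert G p a φ

theorem HasOrder.le_usp [Finite V] {G : MG V} {p : ℕ} (h : HasOrder G p) : p ≤ usp G := by
  rcases h with h | ⟨a, φ, h⟩
  · omega
  · exact Pool.Agent.Results.MP_aba9fe_co.Intermediate.le_usp h

theorem HasOrder.del {G : MG V} {p : ℕ} (h : HasOrder G (p + 1)) (v : V) :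
    ∃ G1 : MG V, Super G G1 ∧ HasOrder (delVertex G1 v) p := by
  classical
  rcases h with h | ⟨a, φ, h⟩
  · omega
  rcases Nat.eq_zero_or_pos p with hp | hp
  · exact ⟨G, Super.refl G, Or.inl hp⟩
  by_cases hv : ∃ s, s < p + 1 ∧ a s = v
  · obtain ⟨s, hs, hsv⟩ := hv
    obtain ⟨G1, hG1, hc⟩ := h.skip s hs
    refine ⟨G1, hG1, Or.inr (hc.restrict v ?_ hp)⟩
    intro i hi
    have key : ∀ j, j < p + 1 → j ≠ s → a j ≠ v := by
      intro j hj hjs he
      have h1 := h.lev j hj
      rw [he, ← hsv, h.lev s hs] at h1
      exact hjs h1.symm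
    change (if i < s then a i else a (i + 1)) ≠ v
    split_ifs with h1
    · exact key i (by omega) (by omega)
    · exact key (i + 1) (by omega) (by omega)
  · push Not at hv
    exact ⟨G, Super.refl G, Or.inr ((h.mono (Nat.le_succ p)).restrict v
      (fun i hi => hv i (by omega)) hp)⟩

theorem HasOrder.contr {G : MG V} {p : ℕ} (h : HasOrder G (p + 1)) (u v : V)
    (huv : 0 < G.mult u v) :
    ∃ G1 : MG V, Super G G1 ∧ HasOrder (contract G1 u v) p := by
  classical
  rcases h with h | ⟨a, φ, h⟩
  · omega
  have hne : u ≠ v := by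
    rintro rfl
    rw [G.loopless u] at huv
    exact lt_irrefl _ huv
  have h := h.cap
  set ψ : V → ℕ := fun x => min (φ x) p with hψ
  have hle : ∀ x, ψ x ≤ p := fun x => min_le_right _ _
  have h1 := h.lip u v huv
  have h2 := h.lip v u (by rw [G.symm v u]; exact huv)
  by_cases hon : (∃ i, i < p + 1 ∧ a i = u) ∧ (∃ j, j < p + 1 ∧ a j = v)
  · obtain ⟨⟨i, hi, hiu⟩, ⟨j, hj, hjv⟩⟩ := hon
    have h3 := h.lev i hi
    have h4 := h.lev j hj
    rw [hiu] at h3
    rw [hjv] at h4
    have hij : i ≠ j := by
      rintro rfl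
      exact hne (hiu.symm.trans hjv)
    rcases lt_or_gt_of_ne hij with h5 | h5
    · have h6 : j = i + 1 := by omega
      subst h6
      exact ⟨G, Super.refl G, Or.inr (h.mergeOn u v hne i (i + 1) (by omega)
        (Or.inl ⟨hiu.symm, hjv.symm, rfl⟩))⟩
    · have h6 : i = j + 1 := by omega
      subst h6
      exact ⟨G, Super.refl G, Or.inr (h.mergeOn u v hne j j (by omega)
        (Or.inr ⟨hiu.symm, hjv.symm, rfl⟩))⟩
  · have hs : max (ψ u) (ψ v) < p + 1 := by
      have := hle u
      have := hle v
      omega
    obtain ⟨G1, hG1, hc⟩ := h.skip (max (ψ u) (ψ v)) hs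
    refine ⟨G1, hG1, Or.inr (hc.mergeOff u v hne ?_ ?_ ?_)⟩
    · change (if ψ u < max (ψ u) (ψ v) then ψ u else ψ u - 1) =
        (if ψ v < max (ψ u) (ψ v) then ψ v else ψ v - 1)
      split_ifs <;> omega
    · have key : ∀ j, j < p + 1 → j ≠ max (ψ u) (ψ v) → a j ≠ u := by
        intro j hj hjs he
        have h3 := h.lev j hj
        rw [he] at h3
        apply hon
        refine ⟨⟨j, hj, he⟩, j + 1, by omega, ?_⟩
        exact (h.uniq j (by omega) v (by rw [he]; exact huv) (by omega)).symm
      intro i hi
      change (if i < max (ψ u) (ψ v) then a i else a (i + 1)) ≠ u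
      split_ifs with h3
      · exact key i (by omega) (by omega)
      · exact key (i + 1) (by omega) (by omega)
    · have key : ∀ j, j < p + 1 → j ≠ max (ψ u) (ψ v) → a j ≠ v := by
        intro j hj hjs he
        have h3 := h.lev j hj
        rw [he] at h3
        apply hon
        refine ⟨⟨j + 1, by omega, ?_⟩, ⟨j, hj, he⟩⟩
        exact (h.uniq j (by omega) u (by rw [he, G.symm v u]; exact huv) (by omega)).symm
      intro i hi
      change (if i < max (ψ u) (ψ v) then a i else a (i + 1)) ≠ v
      split_ifs with h3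
      · exact key i (by omega) (by omega)
      · exact key (i + 1) (by omega) (by omega)

theorem contract_super {G G1 : MG V} (h : Super G G1) (u v : V) :
    Super (contract G u v) (contract G1 u v) := by
  classical
  intro x y
  simp only [contract]
  have h1 := h x.1 y.1
  have h2 := h v y.1
  have h3 := h x.1 v
  split_ifs <;> omega

theorem delVertex_super {G G1 : MG V} (h : Super G G1) (v : V) :
    Super (delVertex G v) (delVertex G1 v) := fun x y => h x.1 y.1

theorem delEdge_super (G : MG V) (x y : V) : Super (delEdge G x y) G := by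
  classical
  intro a b
  simp only [delEdge]
  split_ifs <;> omega

theorem card_compl [Finite V] (v : V) : Nat.card {w : V // w ≠ v} + 1 = Nat.card V := by
  classical
  haveI := Fintype.ofFinite V
  rw [Nat.card_eq_fintype_card, Nat.card_eq_fintype_card]
  rw [Fintype.card_subtype_compl, Fintype.card_subtype_eq]
  have : 0 < Fintype.card V := Fintype.card_pos_iff.2 ⟨v⟩
  omega

end Cert

/-- The main induction: passing to a minor. -/
theorem Minor.main {V W : Type} {G : MG V} {H : MG W} (h : Minor V G W H) :
    Finite W → ∀ H' : MG W, Super H H' → ∀ p, HasOrder H' p →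
      Finite V ∧ ∃ (G' : MG V) (q : ℕ), Super G G' ∧ HasOrder G' q ∧
        Nat.card V + p ≤ Nat.card W + q := by
  induction h with
  | @iso W G H e h =>
    intro hW H' hH' p hp
    refine ⟨Finite.of_equiv W e.symm, ⟨fun x y => H'.mult (e x) (e y), fun x y => H'.symm _ _,
      fun x => H'.loopless _⟩, p, ?_, ?_, ?_⟩
    · intro x y
      have := hH' (e x) (e y)
      rw [h x y] at this
      exact this
    · rcases hp with hp | ⟨a, φ, hc⟩
      · exact Or.inl hp
      · refine Or.inr ⟨fun i => e.symm (a i), fun x => φ (e x), ?_, ?_, ?_, ?_⟩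
        · intro i hi
          change φ (e (e.symm (a i))) = i
          rw [e.apply_symm_apply, hc.lev i hi]
        · intro x y hxy
          exact hc.lip _ _ hxy
        · intro i hi y hy hφ
          have h1 : 0 < H'.mult (e (e.symm (a i))) (e y) := hy
          rw [e.apply_symm_apply] at h1
          have h2 := hc.uniq i hi (e y) h1 hφ
          change y = e.symm (a (i + 1))
          rw [← h2, e.symm_apply_apply]
        · intro i hi
          change H'.mult (e (e.symm (a i))) (e (e.symm (a (i + 1)))) = 1
          rw [e.apply_symm_apply, e.apply_symm_apply, hc.one i hi]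
    · rw [Nat.card_congr e]
  | @delVertex W G H v hv h ih =>
    intro hW H' hH' p hp
    have hcard := card_compl (V := W) v
    cases p with
    | zero =>
      obtain ⟨hV, G', q, h1, h2, h3⟩ := ih inferInstance _ (delVertex_super hH' v) 0 (Or.inl rfl)
      exact ⟨hV, G', q, h1, h2, by omega⟩
    | succ p =>
      obtain ⟨H1, hH1, ho⟩ := hp.del v
      obtain ⟨hV, G', q, h1, h2, h3⟩ := ih inferInstance _
        (delVertex_super (hH'.trans hH1) v) p ho
      exact ⟨hV, G', q, h1, h2, by omega⟩
  | @delEdge W G H x y hxy h ih =>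
    intro hW H' hH' p hp
    exact ih hW H' ((delEdge_super H x y).trans hH') p hp
  | @contract W G H u v huv h ih =>
    intro hW H' hH' p hp
    have hcard := card_compl (V := W) v
    cases p with
    | zero =>
      obtain ⟨hV, G', q, h1, h2, h3⟩ := ih inferInstance _ (contract_super hH' u v) 0 (Or.inl rfl)
      exact ⟨hV, G', q, h1, h2, by omega⟩
    | succ p =>
      have h0 : 0 < H'.mult u v := by
        have := hH' u v
        omega
      obtain ⟨H1, hH1, ho⟩ := hp.contr u v h0
      obtain ⟨hV, G', q, h1, h2, h3⟩ := ih inferInstance _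
        (contract_super (hH'.trans hH1) u v) p ho
      exact ⟨hV, G', q, h1, h2, by omega⟩

/-- Lowering the parade number by doubling edges. -/
theorem lower {V : Type} [Finite V] [Nonempty V] :
    ∀ (n : ℕ) (G : MG V) (q : ℕ), Nat.card {z : V × V // G.mult z.1 z.2 = 1} = n →
      1 ≤ q → q ≤ usp G → ∃ F : MG V, Super G F ∧ usp F = q := by
  classical
  intro n
  induction n using Nat.strong_induction_on with
  | _ n ih =>
    intro G q hn hq1 hq
    by_cases heq : usp G = q
    · exact ⟨G, Super.refl G, heq⟩
    obtain ⟨p, hp⟩ : ∃ p, usp G = p + 2 := ⟨usp G - 2, by omega⟩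
    obtain ⟨a, φ, hc⟩ := exists_cert G (p := p + 2) (by omega)
    have hlevne : ∀ j k : ℕ, j < p + 2 → k < p + 2 → j ≠ k → a j ≠ a k := by
      intro j k hj hk hjk he
      have h1 := hc.lev j hj
      rw [he, hc.lev k hk] at h1
      exact hjk h1.symm
    have hone := hc.one p (by omega)
    have hpos : ∀ x y, 0 < (addE G True (a p) (a (p + 1))).mult x y → 0 < G.mult x y := by
      intro x y hxy
      rcases addE_pos hxy with h1 | ⟨_, _, ⟨h1, h2⟩ | ⟨h1, h2⟩⟩
      · exact h1
      · rw [h1, h2, hone]; exact one_pos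
      · rw [h1, h2, G.symm, hone]; exact one_pos
    have hc' : Cert (addE G True (a p) (a (p + 1))) (p + 1) a φ := by
      refine ⟨?_, ?_, ?_, ?_⟩
      · intro i hi
        exact hc.lev i (by omega)
      · intro x y hxy
        exact hc.lip x y (hpos x y hxy)
      · intro i hi y hy hφ
        exact hc.uniq i (by omega) y (hpos _ _ hy) hφ
      · intro i hi
        simp only [addE]
        rw [hc.one i (by omega), if_neg]
        rintro ⟨_, _, ⟨h1, h2⟩ | ⟨h1, h2⟩⟩
        · exact hlevne i p (by omega) (by omega) (by omega) h1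
        · exact hlevne i (p + 1) (by omega) (by omega) (by omega) h1
    have husp := le_usp hc'
    have hlt : Nat.card {z : V × V // (addE G True (a p) (a (p + 1))).mult z.1 z.2 = 1} < n := by
      rw [← hn]
      have hsub : ∀ z : V × V, (addE G True (a p) (a (p + 1))).mult z.1 z.2 = 1 →
          G.mult z.1 z.2 = 1 := by
        intro z hz
        have h1 := hpos z.1 z.2 (by omega)
        have h2 := addE_super G True (a p) (a (p + 1)) z.1 z.2
        omega
      have : Nat.card {z : V × V // (addE G True (a p) (a (p + 1))).mult z.1 z.2 = 1} <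
          Nat.card {z : V × V // G.mult z.1 z.2 = 1} := by
        rw [← Set.coe_ofPred, ← Set.coe_ofPred, Nat.card_coe_set_eq, Nat.card_coe_set_eq]
        apply Set.ncard_lt_ncard _ (Set.toFinite _)
        refine ⟨fun z hz => hsub z hz, ?_⟩
        intro hcon
        have h1 : (a p, a (p + 1)) ∈ {z : V × V | G.mult z.1 z.2 = 1} := hone
        have h2 := hcon h1
        have h3 : (addE G True (a p) (a (p + 1))).mult (a p) (a (p + 1)) = 1 := h2
        rw [addE_self G (hlevne _ _ (by omega) (by omega) (by omega)), hone] at h3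
        omega
      exact this
    obtain ⟨F, hF1, hF2⟩ := ih _ hlt (addE G True (a p) (a (p + 1))) q rfl hq1 (by omega)
    exact ⟨F, (addE_super G True _ _).trans hF1, hF2⟩

/-- For every finite nonempty multigraph `G` and every `i` with `sf G ≤ i ≤ sp G` there is a
supergraph `F` of `G` with `sp F = i`. -/
theorem result (V : Type) [Finite V] [Nonempty V] (G : MG V) (i : ℕ) (h1 : sf G ≤ i)
    (h2 : i ≤ sp G) : ∃ F : MG V, Super G F ∧ sp F = i := by
  have hne : {s | ∃ (W : Type) (_ : Finite W) (H : MG W), Minor V G W H ∧ sp H = s}.Nonempty :=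
    ⟨sp G, V, ‹Finite V›, G, Minor.iso G G (Equiv.refl V) (fun _ _ => rfl), rfl⟩
  obtain ⟨W, hW, H, hm, hs⟩ := Nat.sInf_mem hne
  have hs' : sp H = sf G := hs
  -- `W` is nonempty because `G` is a minor of `H`
  have hord : HasOrder H (usp H) := by
    by_cases hWn : Nonempty W
    · exact Or.inr (exists_cert H le_rfl)
    · left
      have h3 := usp_le_card H
      have h4 : Nat.card W = 0 := by
        rw [Nat.card_eq_zero]
        exact Or.inl (not_nonempty_iff.1 hWn)
      omega
  obtain ⟨_, G', q, hG', hq, hle⟩ := hm.main hW H (Super.refl H) _ hord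
  have h5 := hq.le_usp
  have h6 := usp_le_card H
  have h7 : sp H = Nat.card W - usp H := rfl
  have h8 : sp G = Nat.card V - usp G := rfl
  have h9 := one_le_usp G
  have h10 := usp_le_card G
  obtain ⟨F, hF1, hF2⟩ := lower _ G' (Nat.card V - i) rfl (by omega) (by omega)
  refine ⟨F, hG'.trans hF1, ?_⟩
  have h11 : sp F = Nat.card V - usp F := rfl
  omega

end Pool.Agent.Results.MP_aba9fe_co.Intermediate
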